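import Pool.Agent.Helper27.PHU.Defs

/-! MP_8bf717_co, module PHU-2: gables as covers. -/

set_option autoImplicit false

namespace Pool.Agent.Helper85.PHU

open Pool.Agent.Helper27.PHU Pool.Agent.Helper37.PH Pool.Agent.Helper61.PH MeasureTheory Set

theorem integral_affine (a b u v : ℝ) :
    ∫ x in u..v, (a + b * x) = a * (v - u) + b * (v ^ 2 - u ^ 2) / 2 := by
  rw [intervalIntegral.integral_add (by simp) (by
    apply Continuous.intervalIntegrable; fun_prop), intervalIntegral.integral_const,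
    intervalIntegral.integral_const_mul, integral_id, smul_eq_mul]
  ring

theorem integral_min_le {X0 X1 p : ℝ} (hp : X0 ≤ p) (hp' : p ≤ X1) (a1 b1 a2 b2 : ℝ) :
    ∫ x in X0..X1, min (a1 + b1 * x) (a2 + b2 * x) ≤
      a1 * (p - X0) + b1 * (p ^ 2 - X0 ^ 2) / 2 + a2 * (X1 - p) + b2 * (X1 ^ 2 - p ^ 2) / 2 := by
  have hI : ∀ u v : ℝ, IntervalIntegrable (fun x => min (a1 + b1 * x) (a2 + b2 * x)) volume u v := by
    intro u v
    apply Continuous.intervalIntegrable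
    fun_prop
  have hA : ∀ a b u v : ℝ, IntervalIntegrable (fun x => a + b * x) volume u v := by
    intro a b u v
    apply Continuous.intervalIntegrable
    fun_prop
  rw [← intervalIntegral.integral_add_adjacent_intervals (hI X0 p) (hI p X1)]
  have h1 : ∫ x in X0..p, min (a1 + b1 * x) (a2 + b2 * x) ≤ ∫ x in X0..p, (a1 + b1 * x) :=
    intervalIntegral.integral_mono_on hp (hI _ _) (hA _ _ _ _) fun x _ => min_le_left _ _
  have h2 : ∫ x in p..X1, min (a1 + b1 * x) (a2 + b2 * x) ≤ ∫ x in p..X1, (a2 + b2 * x) :=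
    intervalIntegral.integral_mono_on hp' (hI _ _) (hA _ _ _ _) fun x _ => min_le_right _ _
  rw [integral_affine] at h1 h2
  linarith

theorem le_integral_max {X0 X1 q : ℝ} (hq : X0 ≤ q) (hq' : q ≤ X1) (c1 d1 c2 d2 : ℝ) :
    c1 * (q - X0) + d1 * (q ^ 2 - X0 ^ 2) / 2 + c2 * (X1 - q) + d2 * (X1 ^ 2 - q ^ 2) / 2 ≤
      ∫ x in X0..X1, max (c1 + d1 * x) (c2 + d2 * x) := by
  have h := integral_min_le hq hq' (-c1) (-d1) (-c2) (-d2)
  have e : (fun x : ℝ => min (-c1 + -d1 * x) (-c2 + -d2 * x)) =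
      fun x => -max (c1 + d1 * x) (c2 + d2 * x) := by
    ext x
    rw [← min_neg_neg]
    congr 1 <;> ring
  rw [e, intervalIntegral.integral_neg] at h
  linarith

theorem cov_gable {K : Set (ℝ × ℝ)} {X0 X1 a1 b1 a2 b2 c1 d1 c2 d2 p q V : ℝ} (hX : X0 < X1)
    (hK : ∀ z ∈ K, X0 ≤ z.1 ∧ z.1 ≤ X1 ∧ z.2 ≤ a1 + b1 * z.1 ∧ z.2 ≤ a2 + b2 * z.1 ∧
      c1 + d1 * z.1 ≤ z.2 ∧ c2 + d2 * z.1 ≤ z.2)
    (h1 : a1 + b1 * X0 ≤ a2 + b2 * X0) (h2 : a2 + b2 * X1 ≤ a1 + b1 * X1)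
    (h3 : c2 + d2 * X0 ≤ c1 + d1 * X0) (h4 : c1 + d1 * X1 ≤ c2 + d2 * X1)
    (hw : a1 + b1 * X0 - (c1 + d1 * X0) = a2 + b2 * X1 - (c2 + d2 * X1))
    (hw0 : c1 + d1 * X0 ≤ a1 + b1 * X0)
    (hp : X0 ≤ p) (hp' : p ≤ X1) (hq : X0 ≤ q) (hq' : q ≤ X1)
    (hV : a1 * (p - X0) + b1 * (p ^ 2 - X0 ^ 2) / 2 + a2 * (X1 - p) + b2 * (X1 ^ 2 - p ^ 2) / 2
      - (c1 * (q - X0) + d1 * (q ^ 2 - X0 ^ 2) / 2 + c2 * (X1 - q) + d2 * (X1 ^ 2 - q ^ 2) / 2)
      ≤ V) : Cov K V := by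
  intro ε hε
  obtain ⟨P, hP, hsub, hvol⟩ := Pool.Agent.Helper88.PH.gable hX a1 b1 a2 b2 c1 d1 c2 d2
    (by rw [max_eq_left h3, min_eq_left h1]; exact hw0)
    (by rw [max_eq_left h3, min_eq_left h1, max_eq_right h4, min_eq_right h2]; exact hw) hε
  refine ⟨P, hP, fun z hz => hsub ?_, hvol.trans ?_⟩
  · obtain ⟨k1, k2, k3, k4, k5, k6⟩ := hK z hz
    exact ⟨⟨k1, k2⟩, max_le k5 k6, le_min k3 k4⟩
  · refine add_le_add (ENNReal.ofReal_le_ofReal ?_) le_rfl
    rw [intervalIntegral.integral_sub]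
    · have e1 := integral_min_le hp hp' a1 b1 a2 b2
      have e2 := le_integral_max hq hq' c1 d1 c2 d2
      linarith
    · apply Continuous.intervalIntegrable
      fun_prop
    · apply Continuous.intervalIntegrable
      fun_prop

theorem cov_limit {K : Set (ℝ × ℝ)} {V : ℝ} (h : ∀ δ : ℝ, 0 < δ → Cov K (V + δ)) : Cov K V := by
  intro ε hε
  obtain ⟨P, hP, hsub, hvol⟩ := h (ε / 2) (by linarith) (ε / 2) (by linarith)
  refine ⟨P, hP, hsub, hvol.trans ?_⟩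
  calc ENNReal.ofReal (V + ε / 2) + ENNReal.ofReal (ε / 2)
      ≤ ENNReal.ofReal V + ENNReal.ofReal (ε / 2) + ENNReal.ofReal (ε / 2) :=
        add_le_add ENNReal.ofReal_add_le le_rfl
    _ = ENNReal.ofReal V + ENNReal.ofReal ε := by
        rw [add_assoc, ← ENNReal.ofReal_add (by linarith) (by linarith), add_halves]

/-- one roof line: the walls need not have equal heights -/
theorem cov_single {K : Set (ℝ × ℝ)} {X0 X1 a b c1 d1 c2 d2 q V : ℝ} (hX : X0 < X1)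
    (hK : ∀ z ∈ K, X0 ≤ z.1 ∧ z.1 ≤ X1 ∧ z.2 ≤ a + b * z.1 ∧
      c1 + d1 * z.1 ≤ z.2 ∧ c2 + d2 * z.1 ≤ z.2)
    (h3 : c2 + d2 * X0 ≤ c1 + d1 * X0) (h4 : c1 + d1 * X1 ≤ c2 + d2 * X1)
    (hw0 : c1 + d1 * X0 ≤ a + b * X0) (hw1 : c2 + d2 * X1 ≤ a + b * X1)
    (hq : X0 ≤ q) (hq' : q ≤ X1)
    (hV : a * (X1 - X0) + b * (X1 ^ 2 - X0 ^ 2) / 2
      - (c1 * (q - X0) + d1 * (q ^ 2 - X0 ^ 2) / 2 + c2 * (X1 - q) + d2 * (X1 ^ 2 - q ^ 2) / 2)
      ≤ V) : Cov K V := by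
  have hd : d1 ≤ d2 := by
    by_contra hc
    push Not at hc
    nlinarith
  set wL := a + b * X0 - (c1 + d1 * X0) with hwL
  set wR := a + b * X1 - (c2 + d2 * X1) with hwR
  have hwL0 : 0 ≤ wL := by rw [hwL]; linarith
  have hwR0 : 0 ≤ wR := by rw [hwR]; linarith
  rcases lt_trichotomy wL wR with hlt | heq | hgt
  · -- the right wall is higher
    refine cov_limit fun ε hε => ?_
    set M : ℝ := |b - d2| + wL + wR + 1 with hM
    have hM1 : |b - d2| ≤ M := by rw [hM]; linarith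
    have hM2 : wL + wR ≤ M := by rw [hM]; have := abs_nonneg (b - d2); linarith
    have hM0 : 0 < M := by rw [hM]; have := abs_nonneg (b - d2); linarith
    obtain ⟨δ, hδ0, hδ1, hδ2⟩ : ∃ δ : ℝ, 0 < δ ∧ δ * M ≤ wR - wL ∧ δ * M ≤ ε := by
      refine ⟨min (wR - wL) ε / M, div_pos (lt_min (by linarith) hε) hM0, ?_, ?_⟩
      · rw [div_mul_cancel₀ _ hM0.ne']; exact min_le_left _ _
      · rw [div_mul_cancel₀ _ hM0.ne']; exact min_le_right _ _
    set s : ℝ := (wR - wL) / δ - d2 with hs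
    have hsδ : s * δ = wR - wL - d2 * δ := by rw [hs]; field_simp
    have hsb : -s ≤ b := by
      have e1 : -(b - d2) * δ ≤ wR - wL := by
        have : -(b - d2) ≤ M := (neg_le_abs _).trans hM1
        nlinarith
      have e2 : -(s + b) * δ ≤ 0 := by
        have : -(s + b) * δ = -(b - d2) * δ - (wR - wL) := by linear_combination -hsδ
        rw [this]; linarith
      by_contra hc
      push Not at hc
      nlinarith
    refine cov_gable (X0 := X0) (X1 := X1 + δ) (a1 := a) (b1 := b) (a2 := a + b * X1 + s * X1)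
      (b2 := -s) (c1 := c1) (d1 := d1) (c2 := c2) (d2 := d2) (p := X1) (q := q)
      (by linarith) ?_ ?_ ?_ h3 ?_ ?_ hw0 hX.le (by linarith) hq (by linarith) ?_
    · intro z hz
      obtain ⟨k1, k2, k3, k4, k5⟩ := hK z hz
      refine ⟨k1, by linarith, k3, ?_, k4, k5⟩
      nlinarith [mul_nonneg (by linarith : 0 ≤ b + s) (by linarith : 0 ≤ X1 - z.1)]
    · nlinarith [mul_nonneg (by linarith : 0 ≤ b + s) (by linarith : 0 ≤ X1 - X0)]
    · nlinarith [mul_nonneg (by linarith : 0 ≤ b + s) hδ0.le]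
    · nlinarith
    · rw [hwL, hwR] at hsδ
      linear_combination hsδ
    · have e1 : (wL + wR) * δ / 2 ≤ ε := by
        have : (wL + wR) * δ ≤ M * δ := mul_le_mul_of_nonneg_right hM2 hδ0.le
        have h0 : 0 ≤ (wL + wR) * δ := mul_nonneg (by linarith) hδ0.le
        linarith
      have e2 : a * (X1 - X0) + b * (X1 ^ 2 - X0 ^ 2) / 2 + (a + b * X1 + s * X1) * (X1 + δ - X1) +
          -s * ((X1 + δ) ^ 2 - X1 ^ 2) / 2 - (c1 * (q - X0) + d1 * (q ^ 2 - X0 ^ 2) / 2 +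
          c2 * (X1 + δ - q) + d2 * ((X1 + δ) ^ 2 - q ^ 2) / 2) =
          (a * (X1 - X0) + b * (X1 ^ 2 - X0 ^ 2) / 2
            - (c1 * (q - X0) + d1 * (q ^ 2 - X0 ^ 2) / 2 + c2 * (X1 - q) +
              d2 * (X1 ^ 2 - q ^ 2) / 2)) + (wL + wR) * δ / 2 := by
        rw [hwL, hwR]
        rw [hwL, hwR] at hsδ
        linear_combination (-δ / 2) * hsδ
      rw [e2]
      linarith
  · -- equal walls
    refine cov_gable (X0 := X0) (X1 := X1) (a1 := a) (b1 := b) (a2 := a) (b2 := b) (c1 := c1)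
      (d1 := d1) (c2 := c2) (d2 := d2) (p := X0) (q := q) hX ?_ le_rfl le_rfl h3 h4 ?_ hw0 le_rfl
      hX.le hq hq' ?_
    · intro z hz
      obtain ⟨k1, k2, k3, k4, k5⟩ := hK z hz
      exact ⟨k1, k2, k3, k3, k4, k5⟩
    · rw [hwL, hwR] at heq; exact heq
    · refine le_trans (le_of_eq ?_) hV
      ring
  · -- the left wall is higher
    refine cov_limit fun ε hε => ?_
    set M : ℝ := |b - d1| + wL + wR + 1 with hM
    have hM1 : |b - d1| ≤ M := by rw [hM]; linarith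
    have hM2 : wL + wR ≤ M := by rw [hM]; have := abs_nonneg (b - d1); linarith
    have hM0 : 0 < M := by rw [hM]; have := abs_nonneg (b - d1); linarith
    obtain ⟨δ, hδ0, hδ1, hδ2⟩ : ∃ δ : ℝ, 0 < δ ∧ δ * M ≤ wL - wR ∧ δ * M ≤ ε := by
      refine ⟨min (wL - wR) ε / M, div_pos (lt_min (by linarith) hε) hM0, ?_, ?_⟩
      · rw [div_mul_cancel₀ _ hM0.ne']; exact min_le_left _ _
      · rw [div_mul_cancel₀ _ hM0.ne']; exact min_le_right _ _
    set s : ℝ := (wL - wR) / δ + d1 with hs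
    have hsδ : s * δ = wL - wR + d1 * δ := by rw [hs]; field_simp
    have hsb : b ≤ s := by
      have e1 : (b - d1) * δ ≤ wL - wR := by
        have : (b - d1) ≤ M := (le_abs_self _).trans hM1
        nlinarith
      have e2 : (b - s) * δ ≤ 0 := by
        have : (b - s) * δ = (b - d1) * δ - (wL - wR) := by linear_combination -hsδ
        rw [this]; linarith
      by_contra hc
      push Not at hc
      nlinarith
    refine cov_gable (X0 := X0 - δ) (X1 := X1) (a1 := a + b * X0 - s * X0) (b1 := s) (a2 := a)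
      (b2 := b) (c1 := c1) (d1 := d1) (c2 := c2) (d2 := d2) (p := X0) (q := q)
      (by linarith) ?_ ?_ ?_ ?_ h4 ?_ ?_ (by linarith) hX.le (by linarith) hq' ?_
    · intro z hz
      obtain ⟨k1, k2, k3, k4, k5⟩ := hK z hz
      refine ⟨by linarith, k2, ?_, k3, k4, k5⟩
      nlinarith [mul_nonneg (by linarith : 0 ≤ s - b) (by linarith : 0 ≤ z.1 - X0)]
    · nlinarith [mul_nonneg (by linarith : 0 ≤ s - b) hδ0.le]
    · nlinarith [mul_nonneg (by linarith : 0 ≤ s - b) (by linarith : 0 ≤ X1 - X0)]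
    · nlinarith
    · rw [hwL, hwR] at hsδ
      linear_combination -hsδ
    · have : a + b * X0 - s * X0 + s * (X0 - δ) - (c1 + d1 * (X0 - δ)) = wR := by
        rw [hwL, hwR] at hsδ
        rw [hwR]
        linear_combination -hsδ
      linarith
    · have e1 : (wL + wR) * δ / 2 ≤ ε := by
        have : (wL + wR) * δ ≤ M * δ := mul_le_mul_of_nonneg_right hM2 hδ0.le
        have h0 : 0 ≤ (wL + wR) * δ := mul_nonneg (by linarith) hδ0.le
        linarith
      have e2 : (a + b * X0 - s * X0) * (X0 - (X0 - δ)) + s * (X0 ^ 2 - (X0 - δ) ^ 2) / 2 +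
          a * (X1 - X0) + b * (X1 ^ 2 - X0 ^ 2) / 2 - (c1 * (q - (X0 - δ)) +
          d1 * (q ^ 2 - (X0 - δ) ^ 2) / 2 + c2 * (X1 - q) + d2 * (X1 ^ 2 - q ^ 2) / 2) =
          (a * (X1 - X0) + b * (X1 ^ 2 - X0 ^ 2) / 2
            - (c1 * (q - X0) + d1 * (q ^ 2 - X0 ^ 2) / 2 + c2 * (X1 - q) +
              d2 * (X1 ^ 2 - q ^ 2) / 2)) + (wL + wR) * δ / 2 := by
        rw [hwL, hwR]
        rw [hwL, hwR] at hsδ
        linear_combination (-δ / 2) * hsδ
      rw [e2]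
      linarith

end Pool.Agent.Helper85.PHU
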